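import Pool.Agent.Helper45.CF.GoalsA

/-!
Packet 12452 (CF-MUL, MP_d97caa_an): `t : S_MUL`, by helper39.
-/

open scoped Topology
open TopologicalSpace Filter

namespace Pool.Agent.Helper39.CF.MUL

open Pool.Agent.Helper45.CF

noncomputable section

theorem zero_of_mul {K : Type} [NonUnitalCStarAlgebra K] {w : K} (h : ∀ z : K, z * w = 0) :
    w = 0 := by
  have := h (star w)
  exact (CStarRing.star_mul_self_eq_zero_iff w).mp this

theorem zero_of_mul' {K : Type} [NonUnitalCStarAlgebra K] {w : K} (h : ∀ z : K, w * z = 0) :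
    w = 0 := by
  have := h (star w)
  exact (CStarRing.mul_star_self_eq_zero_iff w).mp this

variable {K : Type} [NonUnitalCStarAlgebra K]

theorem fst_mul (m : DoubleCentralizer ℂ K) (x y : K) : m.fst (x * y) = m.fst x * y := by
  rw [← sub_eq_zero]
  apply zero_of_mul
  intro z
  rw [mul_sub, ← m.central, ← mul_assoc z, ← m.central, mul_assoc, sub_self]

theorem snd_mul (m : DoubleCentralizer ℂ K) (x y : K) : m.snd (x * y) = x * m.snd y := by
  rw [← sub_eq_zero]
  apply zero_of_mul'
  intro z
  rw [sub_mul, m.central, mul_assoc x (m.snd y), m.central y z, mul_assoc, sub_self]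

theorem mul_coe (m : DoubleCentralizer ℂ K) (x : K) :
    m * DoubleCentralizer.coeHom (𝕜 := ℂ) x = DoubleCentralizer.coeHom (𝕜 := ℂ) (m.fst x) := by
  refine DoubleCentralizer.ext ℂ K _ _ (Prod.ext ?_ ?_)
  · ext y
    show m.fst (x * y) = m.fst x * y
    exact fst_mul m x y
  · ext y
    show (m.snd y) * x = y * m.fst x
    exact m.central y x

theorem coe_mul (m : DoubleCentralizer ℂ K) (x : K) :
    DoubleCentralizer.coeHom (𝕜 := ℂ) x * m = DoubleCentralizer.coeHom (𝕜 := ℂ) (m.snd x) := by
  refine DoubleCentralizer.ext ℂ K _ _ (Prod.ext ?_ ?_)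
  · ext y
    show x * m.fst y = m.snd x * y
    exact (m.central x y).symm
  · ext y
    show m.snd (y * x) = y * m.snd x
    exact snd_mul m y x

theorem coe_inj : Function.Injective
    (DoubleCentralizer.coeHom (𝕜 := ℂ) : K →⋆ₙₐ[ℂ] DoubleCentralizer ℂ K) := by
  intro x y h
  rw [← sub_eq_zero]
  apply zero_of_mul'
  intro z
  have h1 := congrArg (fun m : DoubleCentralizer ℂ K => m.fst z) h
  have h2 : x * z = y * z := h1
  rw [sub_mul, h2, sub_self]

theorem coe_cont : Continuous
    (DoubleCentralizer.coeHom (𝕜 := ℂ) : K →⋆ₙₐ[ℂ] DoubleCentralizer ℂ K) := by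
  refine AddMonoidHomClass.continuous_of_bound _ 1 fun x => ?_
  rw [one_mul]
  exact NonUnitalStarAlgHom.norm_apply_le _ x

theorem t : S_MUL := by
  intro K _
  refine ⟨DoubleCentralizer ℂ K, inferInstance, DoubleCentralizer.coeHom (𝕜 := ℂ), coe_inj,
    fun m x => ⟨⟨_, (mul_coe m x).symm⟩, ⟨_, (coe_mul m x).symm⟩⟩, ?_, ?_⟩
  · intro m hm
    have h1 : m.fst = 0 := by
      ext x
      have := hm x
      rw [mul_coe] at this
      have h2 := coe_inj (this.trans (map_zero _).symm)
      exact h2
    have h2 : ‖m‖ = 0 := by rw [← DoubleCentralizer.norm_fst, h1, norm_zero]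
    exact norm_eq_zero.mp h2
  · intro b C _ hl hr
    choose l hl' using fun x => cauchySeq_tendsto_of_complete (hl x)
    choose r hr' using fun x => cauchySeq_tendsto_of_complete (hr x)
    have hL : Tendsto (fun (n : ℕ) (x : K) => (ContinuousLinearMap.mul ℂ K (b n)) x) atTop
        (𝓝 l) := tendsto_pi_nhds.mpr fun x => hl' x
    have hR : Tendsto (fun (n : ℕ) (x : K) => ((ContinuousLinearMap.mul ℂ K).flip (b n)) x) atTop
        (𝓝 r) := tendsto_pi_nhds.mpr fun x => hr' x
    let L : K →L[ℂ] K := continuousLinearMapOfTendsto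
      (fun n => ContinuousLinearMap.mul ℂ K (b n)) hL
    let R : K →L[ℂ] K := continuousLinearMapOfTendsto
      (fun n => (ContinuousLinearMap.mul ℂ K).flip (b n)) hR
    have hc : ∀ x y : K, R x * y = x * L y := by
      intro x y
      have h1 : Tendsto (fun n => (x * b n) * y) atTop (𝓝 (r x * y)) :=
        (hr' x).mul_const y
      have h2 : Tendsto (fun n => x * (b n * y)) atTop (𝓝 (x * l y)) :=
        (hl' y).const_mul x
      have h3 : (fun n => (x * b n) * y) = fun n => x * (b n * y) := by
        funext n; rw [mul_assoc]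
      rw [h3] at h1
      exact tendsto_nhds_unique h1 h2
    let m : DoubleCentralizer ℂ K := ⟨(L, R), hc⟩
    refine ⟨m, fun x => ⟨?_, ?_⟩⟩
    · rw [mul_coe]
      exact (coe_cont.tendsto _).comp (hl' x)
    · rw [coe_mul]
      exact (coe_cont.tendsto _).comp (hr' x)

end

end Pool.Agent.Helper39.CF.MUL
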