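import Pool.Agent.Helper55.CF.Goals

noncomputable section
namespace CF55
namespace R1bAux

theorem fr_inf (K : Submodule ℂ V) (φ : V →ₗ[ℂ] ℂ) :
    Module.finrank ℂ K ≤ Module.finrank ℂ (K ⊓ LinearMap.ker φ : Submodule ℂ V) + 1 := by
  have h1 := Submodule.finrank_sup_add_finrank_inf_eq K (LinearMap.ker φ)
  have h2 := LinearMap.finrank_range_add_finrank_ker φ
  have h3 : Module.finrank ℂ (LinearMap.range φ) ≤ 1 := by
    have := Submodule.finrank_le (LinearMap.range φ)
    simpa using this
  have h4 : Module.finrank ℂ (K ⊔ LinearMap.ker φ : Submodule ℂ V) ≤ Module.finrank ℂ V :=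
    Submodule.finrank_le _
  omega

theorem main (T : Tri) (P : V) (m l : V →ₗ[ℂ] ℂ) (hS : Sym T) (hP : P ≠ 0) (hm : m ≠ 0)
    (hPP : ∀ v, T P P v = 0) (hPm : ∀ v, T P v v = m v ^ 2)
    (hl : ∀ x y z, m x = 0 → m y = 0 → m z = 0 → T x y z = l x * l y * l z) :
    R2pat T ∨ TwoKer T := by
  classical
  obtain ⟨v1, hv1⟩ : ∃ v, m v ≠ 0 := by
    by_contra hcon
    push Not at hcon
    exact hm (LinearMap.ext fun v => by simpa using hcon v)
  obtain ⟨v0, hv0⟩ : ∃ v, m v = 1 := ⟨(m v1)⁻¹ • v1, by simp [hv1]⟩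
  have hV : Module.finrank ℂ V = 6 := by simp [V]
  -- decomposition
  have hdec : ∀ v, v = (v - m v • v0) + m v • v0 := fun v => by abel
  have hdm : ∀ v, m (v - m v • v0) = 0 := fun v => by simp [hv0]
  have s13 : ∀ x y z, T x y z = T z y x := fun x y z => by
    rw [hS.s12, hS.s23, hS.s12]
  let H0 : Submodule ℂ V := LinearMap.ker m ⊓ LinearMap.ker l
  have hH0 : 4 ≤ Module.finrank ℂ H0 := by
    have h1 := fr_inf (LinearMap.ker m) l
    have h2 := fr_inf ⊤ m
    rw [finrank_top, hV, top_inf_eq] at h2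
    change 4 ≤ Module.finrank ℂ (LinearMap.ker m ⊓ LinearMap.ker l : Submodule ℂ V)
    omega
  by_cases hc : ∃ s, m s = 0 ∧ l s = 0 ∧ T s s v0 = 0 ∧ ∃ h, m h = 0 ∧ T s h v0 ≠ 0
  · left
    obtain ⟨s, ms, ls, ss, h, mh, hh⟩ := hc
    have s0 : s ≠ 0 := by
      rintro rfl
      exact hh (by simp)
    have hss : ∀ v, T s s v = 0 := by
      intro v
      rw [hdec v, map_add, map_smul, ss, hl s s _ ms ms (hdm v), ls]
      simp
    let L : V →ₗ[ℂ] ℂ := (2 : ℂ) • (T.flip v0 |> fun _ => (T s).flip v0) - (T s v0 v0) • m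
    have hL : ∀ v, L v = 2 * T s v v0 - T s v0 v0 * m v := fun v => by
      simp [L]
    have hvv : ∀ v, T s v v = m v * L v := by
      intro v
      set u := v - m v • v0 with hu
      have e1 : T s v v = T s u u + 2 * m v * T s u v0 + m v ^ 2 * T s v0 v0 := by
        have : v = u + m v • v0 := hdec v
        conv_lhs => rw [this]
        have h3 : T s v0 u = T s u v0 := hS.s23 _ _ _
        simp only [map_add, map_smul, LinearMap.add_apply, LinearMap.smul_apply, smul_eq_mul, h3]
        ring
      have e2 : T s v v0 = T s u v0 + m v * T s v0 v0 := by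
        have : v = u + m v • v0 := hdec v
        conv_lhs => rw [this]
        simp only [map_add, map_smul, LinearMap.add_apply, LinearMap.smul_apply, smul_eq_mul]
      have e3 : T s u u = 0 := by
        rw [hl s u u ms (hdm v) (hdm v), ls]; ring
      rw [e1, hL, e2, e3]; ring
    refine ⟨s, s0, hss, m, L, ?_, hvv, LinearMap.ker m ⊓ LinearMap.ker L ⊓ LinearMap.ker l,
      LinearMap.ker m ⊓ LinearMap.ker L ⊓ LinearMap.ker l, ?_, le_rfl, inf_le_left, ?_, ?_, ?_⟩
    · rw [LinearIndependent.pair_iff]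
      intro a b hab
      have h1 := congrArg (fun f : V →ₗ[ℂ] ℂ => f h) hab
      simp only [LinearMap.add_apply, LinearMap.smul_apply, smul_eq_mul, LinearMap.zero_apply,
        hL, mh] at h1
      have hb : b = 0 := by
        have : b * (2 * T s h v0) = 0 := by linear_combination h1
        rcases mul_eq_zero.1 this with h2 | h2
        · exact h2
        · exact absurd (by simpa using h2) hh
      have h2 := congrArg (fun f : V →ₗ[ℂ] ℂ => f v0) hab
      simp only [LinearMap.add_apply, LinearMap.smul_apply, smul_eq_mul, LinearMap.zero_apply,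
        hv0, hb] at h2
      exact ⟨by simpa using h2, hb⟩
    · simp only [Submodule.mem_inf, LinearMap.mem_ker]
      exact ⟨⟨ms, by rw [hL, ss, ms]; ring⟩, ls⟩
    · have h1 := fr_inf (LinearMap.ker m ⊓ LinearMap.ker L) l
      have h2 := fr_inf (LinearMap.ker m) L
      have h3 := fr_inf ⊤ m
      rw [finrank_top, hV, top_inf_eq] at h3
      omega
    · have h1 := fr_inf (LinearMap.ker m ⊓ LinearMap.ker L) l
      have h2 := fr_inf (LinearMap.ker m) L
      have h3 := fr_inf ⊤ m
      rw [finrank_top, hV, top_inf_eq] at h3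
      omega
    · intro a ha b hb v hv
      simp only [Submodule.mem_inf, LinearMap.mem_ker] at ha hb hv
      rw [hl a b v ha.1.1 hb.1.1 hv.1, ha.2]; ring
  · right
    push Not at hc
    let N : Submodule ℂ V :=
      { carrier := {s | m s = 0 ∧ l s = 0 ∧ ∀ h, m h = 0 → T s h v0 = 0}
        add_mem' := by
          rintro a b ⟨a1, a2, a3⟩ ⟨b1, b2, b3⟩
          refine ⟨by simp [a1, b1], by simp [a2, b2], fun h mh => ?_⟩
          simp [a3 h mh, b3 h mh]
        zero_mem' := by simp
        smul_mem' := by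
          rintro c a ⟨a1, a2, a3⟩
          refine ⟨by simp [a1], by simp [a2], fun h mh => ?_⟩
          simp [a3 h mh] }
    have memN : ∀ s, s ∈ N ↔ m s = 0 ∧ l s = 0 ∧ ∀ h, m h = 0 → T s h v0 = 0 := fun s => Iff.rfl
    have hN : 3 ≤ Module.finrank ℂ N := by
      by_cases hq : ∀ s ∈ H0, T s s v0 = 0
      · have : H0 ≤ N := by
          intro s hs
          have hs' := hs
          simp only [H0, Submodule.mem_inf, LinearMap.mem_ker] at hs'
          exact ⟨hs'.1, hs'.2, fun h mh => hc s hs'.1 hs'.2 (hq s hs) h mh⟩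
        have := Submodule.finrank_mono this
        omega
      · push Not at hq
        obtain ⟨s1, hs1, hq1⟩ := hq
        have hs1' := hs1
        simp only [H0, Submodule.mem_inf, LinearMap.mem_ker] at hs1'
        have hle : H0 ≤ N ⊔ Submodule.span ℂ {s1} := by
          intro s hs
          have hs' := hs
          simp only [H0, Submodule.mem_inf, LinearMap.mem_ker] at hs'
          obtain ⟨x, hx⟩ : ∃ x : ℂ, T s1 s1 v0 * (x * x) + (2 * T s1 s v0) * x + T s s v0 = 0 :=
            exists_quadratic_eq_zero hq1 ⟨_, (Complex.cpow_nat_inv_pow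
              (discrim (T s1 s1 v0) (2 * T s1 s v0) (T s s v0)) two_ne_zero).symm.trans
              (sq _)⟩
          have hn : s + x • s1 ∈ N := by
            have c1 : m (s + x • s1) = 0 := by simp [hs'.1, hs1'.1]
            have c2 : l (s + x • s1) = 0 := by simp [hs'.2, hs1'.2]
            refine ⟨c1, c2, fun h mh => hc _ c1 c2 ?_ h mh⟩
            have h3 : T s s1 v0 = T s1 s v0 := hS.s12 _ _ _
            simp only [map_add, map_smul, LinearMap.add_apply, LinearMap.smul_apply, smul_eq_mul,
              h3]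
            linear_combination hx
          rw [Submodule.mem_sup]
          exact ⟨_, hn, -(x • s1), by
            apply Submodule.neg_mem
            exact Submodule.smul_mem _ _ (Submodule.mem_span_singleton_self _), by abel⟩
        have h1 := Submodule.finrank_mono hle
        have h2 := Submodule.finrank_add_le_finrank_add_finrank N (Submodule.span ℂ {s1})
        have h3 : Module.finrank ℂ (Submodule.span ℂ {s1}) ≤ 1 := finrank_span_le_card ({s1} : Set V) |>.trans (by simp)
        omega
    let φ : V →ₗ[ℂ] ℂ := ((LinearMap.flip T v0).flip v0)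
    have hφ : ∀ s, φ s = T s v0 v0 := fun s => by simp [φ]
    have hN0 : 2 ≤ Module.finrank ℂ (N ⊓ LinearMap.ker φ : Submodule ℂ V) := by
      have := fr_inf N φ
      omega
    have hker : ∀ s ∈ (N ⊓ LinearMap.ker φ : Submodule ℂ V), ∀ v v', T s v v' = 0 := by
      intro s hs v v'
      rw [Submodule.mem_inf, LinearMap.mem_ker, hφ, memN] at hs
      obtain ⟨⟨s1, s2, s3⟩, s4⟩ := hs
      rw [hdec v, hdec v']
      have a1 : T s (v - m v • v0) (v' - m v' • v0) = 0 := by
        rw [hl _ _ _ s1 (hdm v) (hdm v'), s2]; ring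
      have a2 : T s (v - m v • v0) v0 = 0 := s3 _ (hdm v)
      have a3 : T s v0 (v' - m v' • v0) = 0 := by rw [hS.s23]; exact s3 _ (hdm v')
      rw [map_add (T s), LinearMap.add_apply, map_add, map_add, map_smul (T s), LinearMap.smul_apply,
        LinearMap.smul_apply, map_smul, map_smul, a1, a2, a3, s4]
      simp
    obtain ⟨n0, hn0⟩ : ∃ n0 : (N ⊓ LinearMap.ker φ : Submodule ℂ V), n0 ≠ 0 := by
      have : Nontrivial (N ⊓ LinearMap.ker φ : Submodule ℂ V) :=
        Module.nontrivial_of_finrank_pos (R := ℂ) (by omega)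
      exact exists_ne 0
    obtain ⟨n1, hn1⟩ := exists_linearIndependent_pair_of_one_lt_finrank (R := ℂ) (by omega) hn0
    refine ⟨n0, n1, ?_, hker n0 n0.2, hker n1 n1.2⟩
    have h9 := hn1.map' (Submodule.subtype _) (Submodule.ker_subtype _)
    have hfun : (![(n0 : V), (n1 : V)]) = (Submodule.subtype _) ∘ ![n0, n1] := by
      funext i
      fin_cases i <;> rfl
    rw [hfun]
    exact h9

end R1bAux

theorem stmtR1b : G_R1b := fun T P m l hS hP hm h1 h2 h3 =>
  R1bAux.main T P m l hS hP hm h1 h2 h3

end CF55
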